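import Mathlib
import Pool.Agent.Y489.PH.Stm
import Pool.Agent.Y485.HS.Loc

/-! # Project PH: invariance of the sign (helper182) -/

set_option autoImplicit false

open MeasureTheory Set Metric Filter Topology
open scoped ENNReal NNReal

namespace Pool.Agent.Y182.PH

open Pool.Agent.Y485.HS Pool.Agent.Y489.PH

/-- a continuous solution `u` of `G (u z) = H z`, where `G` has derivative one, is differentiable -/
theorem hasFDerivAt_of_comp {V : Type*} [NormedAddCommGroup V] [NormedSpace ℝ V] {G u : V → V}
    {x : V} {M : V →L[ℝ] V} (hu : ContinuousAt u x)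
    (hG : HasFDerivAt G (ContinuousLinearMap.id ℝ V) (u x))
    (hGu : HasFDerivAt (fun z => G (u z)) M x) : HasFDerivAt u M x := by
  rw [hasFDerivAt_iff_isLittleO] at hG ⊢
  have h1 : (fun z => G (u z) - G (u x) - (u z - u x)) =o[𝓝 x] (fun z => u z - u x) :=
    hG.comp_tendsto hu
  have h2 : (fun z => u z - u x) =O[𝓝 x] fun z => G (u z) - G (u x) := by
    have := h1.right_isBigO_add
    refine this.congr_right ?_
    intro z
    abel
  have h3 : (fun z => u z - u x) =O[𝓝 x] fun z => z - x := h2.trans hGu.isBigO_sub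
  have h4 := h1.trans_isBigO h3
  rw [hasFDerivAt_iff_isLittleO] at hGu
  refine (hGu.sub h4).congr_left ?_
  intro z
  abel

theorem t_SGN : S_DEG → S_SGN := by
  intro hDEG n hn K _ _ T hT F k hF x hx L L' hL hLd hL' hLd'
  have hx' : ‖x‖ < 3 / 2 := by simpa using hx
  have hxB : x ∈ BB n := mem_BB.2 (by linarith)
  have hTx := norm_T_le hT k hxB
  have hTxB : T k x ∈ BB n := mem_BB.2 (by linarith)
  have hnhd : BB n ∈ 𝓝 x := by
    refine mem_of_superset (isOpen_ball.mem_nhds (show x ∈ ball (0 : E n) 4 by
      simp; linarith)) ball_subset_closedBall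
  have hnhd3 : ball (0 : E n) 3 ∈ 𝓝 x := isOpen_ball.mem_nhds (by simp; linarith)
  have hcont : ContinuousAt (T k) x := (LocAct.cont_right hT k).continuousAt hnhd
  set e := L'.toContinuousLinearEquivOfDetNeZero hLd' with he
  have heL : (e : E n →L[ℝ] E n) = L' := by
    rw [he]; exact ContinuousLinearMap.coe_toContinuousLinearEquivOfDetNeZero _ _
  set M : E n →L[ℝ] E n := (e.symm : E n →L[ℝ] E n).comp L with hM
  have hLM : L = L'.comp M := by
    ext1 v
    rw [hM, ← heL]
    simp
  have hdet : L.det = L'.det * M.det := by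
    conv_lhs => rw [hLM]
    simp only [ContinuousLinearMap.det]
    rw [← LinearMap.det_comp]
    rfl
  have hMd : M.det ≠ 0 := by
    intro h
    rw [h, mul_zero] at hdet
    exact hLd hdet
  -- the derivative of `T k`
  have hG : HasFDerivAt (fun w => e.symm (F w)) (ContinuousLinearMap.id ℝ (E n)) (T k x) := by
    have h1 := (e.symm : E n →L[ℝ] E n).hasFDerivAt.comp (T k x) hL'
    have h2 : (e.symm : E n →L[ℝ] E n).comp L' = ContinuousLinearMap.id ℝ (E n) := by
      ext1 v
      rw [← heL]
      simp
    rw [h2] at h1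
    exact h1
  have hGu : HasFDerivAt (fun z => e.symm (F (T k z))) M x := by
    have h1 : HasFDerivAt (fun z => e.symm (F z)) M x :=
      (e.symm : E n →L[ℝ] E n).hasFDerivAt.comp x hL
    refine h1.congr_of_eventuallyEq ?_
    filter_upwards [hnhd3] with z hz
    rw [hF z hz]
  have hder : HasFDerivAt (T k) M x := hasFDerivAt_of_comp hcont hG hGu
  -- the degree
  have h := hDEG n hn (T k) (LocAct.cont_right hT k) (hT.disp k) (T k x) (by simp; linarith)
    {x} (fun _ => M) (by
      intro z
      rw [Finset.mem_singleton]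
      constructor
      · rintro rfl
        exact ⟨by simp; linarith, rfl⟩
      · rintro ⟨hz, hzx⟩
        have hz' : ‖z‖ < 3 := by simpa using hz
        have hzB : z ∈ BB n := mem_BB.2 (by linarith)
        have hTz := norm_T_le hT k hzB
        have hTzB : T k z ∈ BB n := mem_BB.2 (by linarith)
        rw [← LocAct.inv hT k hzB hTzB, hzx, LocAct.inv hT k hxB hTxB])
    (by
      intro z hz
      rw [Finset.mem_singleton] at hz
      subst hz
      exact ⟨hder, hMd⟩)
  rw [Finset.sum_singleton] at h
  have hpos : 0 < M.det := by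
    rcases lt_trichotomy M.det 0 with h1 | h1 | h1
    · rw [sign_neg h1] at h
      norm_num at h
    · exact absurd h1 hMd
    · exact h1
  rw [hdet]
  have : 0 < L'.det ^ 2 := by positivity
  nlinarith

end Pool.Agent.Y182.PH
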